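import Pool.Agent.Lib.MP_8a52c3_lc.Ac0.Final

open Pool.Agent.Lib.MP_8a52c3_lc.Ac0

theorem Pool.Agent.Results.MP_8a52c3_lc.AC0pFrege.result (p : ℕ) (hp : p.Prime) :
    ∃ F : ℕ → Set (List (ℕ × Bool)),
      (∀ n, ∀ C ∈ F n, C.length ≤ 4 ∧ ∀ l ∈ C, l.1 < n) ∧
      (∀ n, ∀ x : ℕ → Bool, ∃ C ∈ F n, ∀ l ∈ C, x l.1 ≠ l.2) ∧
      ∀ R : List (List (Fm p) × Fm p), (∀ r ∈ R, Sound r) → ∀ d : ℕ,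
        ∃ ε : ℝ, 0 < ε ∧ ∃ n₀ : ℕ, ∀ n ≥ n₀, ∀ (t : ℕ) (L : ℕ → Fm p),
          Refutes R (F n) t L → (∀ k < t, (L k).depth ≤ d) →
          (2 : ℝ) ^ ((n : ℝ) ^ ε) ≤ ((∑ k ∈ Finset.range t, (L k).size : ℕ) : ℝ) :=
  haveI : Fact p.Prime := ⟨hp⟩
  final_of_key p hp.one_le (key p)
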