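import Pool.Agent.Lib.MP_8a52c3_lc.H91SF

namespace Pool.Agent.Results.MP_8a52c3_lc.CutPolytopeSDP

/-- The semidefinite extension complexity of the cut polytope of the complete graph on `n` vertices
is at least `2 ^ (c n)`: if the polytope is the affine image of a spectrahedron cut out by an
`m × m` linear matrix inequality, then `m ≥ 2 ^ (c n)`. -/
theorem result : ∃ c : ℝ, 0 < c ∧ ∃ n₀ : ℕ, ∀ n ≥ n₀, ∀ (m : ℕ) (V : Type) [AddCommGroup V]
    [Module ℝ V] (M : V →ᵃ[ℝ] Matrix (Fin m) (Fin m) ℝ)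
    (π : V →ᵃ[ℝ] ({p : Fin n × Fin n // p.1 < p.2} → ℝ)),
    π '' {w | (M w).PosSemidef} = convexHull ℝ (Set.range fun (S : Finset (Fin n))
      (p : {p : Fin n × Fin n // p.1 < p.2}) => if (p.1.1 ∈ S ↔ p.1.2 ∈ S) then (0 : ℝ) else 1) →
    (2 : ℝ) ^ (c * n) ≤ m :=
  Pool.Agent.Lib.MP_8a52c3_lc.H91S.cut_sdp

end Pool.Agent.Results.MP_8a52c3_lc.CutPolytopeSDP
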