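import Pool.Agent.Lib.MP_8a52c3_lc.LS.Main

open Pool.Agent.Lib.MP_8a52c3_lc.LS

theorem Pool.Agent.Results.MP_8a52c3_lc.LovaszSchrijver.result :
    ∃ N₀ : ℕ, ∀ N ≥ N₀, ∃ F : Finset (Finset (Fin N × Bool)), F.card ≤ N ^ 7 ∧
      (∀ x : Fin N → Bool, ∃ c ∈ F, ∀ l ∈ c, x l.1 ≠ l.2) ∧
      ∀ (T : ℕ) (L : ℕ → Poly N), Refutes F T L → (2 : ℝ) ^ ((N : ℝ) ^ (1 / 10 : ℝ)) ≤ T :=
  main
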