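import Pool.Prelude.Def_H_3587d628
import Pool.Agent.Lib.MP_8a52c3_lc.Neg.Main

/-! A monotone language in P whose circuits with `t` negation gates have size at least
`2 ^ (c N / 2 ^ t) / N ^ 3`. The function `g v` is the function computed at gate `v`, and every
negation gate lies in `T`. -/

namespace Pool.Agent.Results.MP_8a52c3_lc.NegationLimited

open Pool.Agent.Lib.MP_8a52c3_lc.Neg

theorem result : ∃ L ∈ N68a2faeb.P,
    (∀ (N : ℕ) (x y : Fin N → Bool), (∀ i, x i = true → y i = true) →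
      L (List.ofFn x) = true → L (List.ofFn y) = true) ∧
    ∃ c : ℝ, 0 < c ∧ ∃ N₀ : ℕ, ∀ N ≥ N₀, ∀ (S : ℕ) (T : Finset (Fin S))
      (g : Fin S → (Fin N → Bool) → ℝ),
      (∀ v, ((∃ a, ∀ x, g v x = a) ∨ (∃ i, ∀ x, g v x = if x i then 1 else 0) ∨
        ∃ u w, u < v ∧ w < v ∧ ∃ φ : ℝ → ℝ → ℝ,
          (∀ a a' b b', a ≤ a' → b ≤ b' → φ a b ≤ φ a' b') ∧ ∀ x, g v x = φ (g u x) (g w x)) ∨
        (v ∈ T ∧ ∃ u, u < v ∧ ∀ x, g v x = if g u x ≤ 0 then 1 else 0)) →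
      (∃ v, ∀ x, g v x = if L (List.ofFn x) then 1 else 0) →
      (2 : ℝ) ^ (c * N / 2 ^ T.card) ≤ S * N ^ 3 := by
  obtain ⟨M, c, hc, h⟩ := neg_lower
  exact ⟨hardT M, hardT_mem_P M, hardT_mono M, c, hc, 72, fun N hN S T g hg hroot =>
    h N hN S T g hg hroot⟩

end Pool.Agent.Results.MP_8a52c3_lc.NegationLimited
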